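import Pool.Agent.ZPT.Stmts

/-!
Squad ZPT, row DN: density.
-/

set_option autoImplicit false

namespace Pool.Agent.ZPT.H88

open Pool.Agent.ZPT

/-- The condition on residues. -/
def Bad {R : Type} [Zero R] {n : ℕ} (v : (Fin n → R) × R) : Prop := ¬ (v.2 = 0 ∧ ∀ i, v.1 i ≠ 0)

/-- finite sets of primes with large sum of reciprocals -/
theorem exists_primes (p₀ : ℕ) (M : ℝ) : ∃ T : Finset ℕ, (∀ p ∈ T, p.Prime ∧ p₀ ≤ p) ∧
    M ≤ ∑ p ∈ T, 1 / (p : ℝ) := by
  classical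
  by_contra hcon
  push Not at hcon
  apply not_summable_one_div_on_primes
  have hf : Summable (fun n : ℕ => if n.Prime ∧ p₀ ≤ n then 1 / (n : ℝ) else 0) := by
    apply summable_of_sum_le (c := M)
    · intro n
      show (0 : ℝ) ≤ if n.Prime ∧ p₀ ≤ n then 1 / (n : ℝ) else 0
      split_ifs
      · positivity
      · exact le_refl _
    · intro u
      rw [← Finset.sum_filter]
      exact (hcon (u.filter fun n => n.Prime ∧ p₀ ≤ n)
        (fun p hp => (Finset.mem_filter.mp hp).2)).le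
  rw [← summable_nat_add_iff p₀] at hf ⊢
  refine hf.congr fun n => ?_
  by_cases h : (n + p₀).Prime
  · simp [Set.indicator, h]
  · simp [Set.indicator, h]

/-- number of bad residues modulo a prime -/
theorem card_bad (p : ℕ) (hp : p.Prime) (n : ℕ) :
    ((Nat.card {v : (Fin n → ZMod p) × ZMod p // Bad v} : ℕ) : ℝ) ≤
      (p : ℝ) ^ (n + 1) * (1 - (1 / 2) ^ n / p) := by
  classical
  have := Fact.mk hp
  have hcard : Nat.card {v : (Fin n → ZMod p) × ZMod p // Bad v} + (p - 1) ^ n = p ^ (n + 1) := by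
    rw [Nat.card_eq_fintype_card]
    have h1 : Fintype.card {v : (Fin n → ZMod p) × ZMod p // Bad v} +
        Fintype.card {v : (Fin n → ZMod p) × ZMod p // ¬ Bad v} =
        Fintype.card ((Fin n → ZMod p) × ZMod p) := by
      rw [← Fintype.card_sum]
      exact Fintype.card_congr (Equiv.sumCompl _)
    have h2 : Fintype.card {v : (Fin n → ZMod p) × ZMod p // ¬ Bad v} = (p - 1) ^ n := by
      have e : {v : (Fin n → ZMod p) × ZMod p // ¬ Bad v} ≃ (Fin n → (ZMod p)ˣ) :=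
        { toFun := fun v i => Units.mk0 (v.1.1 i) ((not_not.mp v.2).2 i)
          invFun := fun u => ⟨(fun i => (u i : ZMod p), 0), by
            unfold Bad
            rw [not_not]
            exact ⟨rfl, fun i => (u i).ne_zero⟩⟩
          left_inv := by
            rintro ⟨⟨a, N⟩, h⟩
            have h3 : N = 0 := (not_not.mp h).1
            subst h3
            rfl
          right_inv := by
            intro u
            funext i
            exact Units.ext rfl }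
      rw [Fintype.card_congr e, Fintype.card_fun, Fintype.card_fin, ZMod.card_units]
    rw [h2] at h1
    rw [h1, Fintype.card_prod, Fintype.card_fun, Fintype.card_fin, ZMod.card, pow_succ]
  have hp2 : (2 : ℝ) ≤ p := by exact_mod_cast hp.two_le
  have h3 : ((Nat.card {v : (Fin n → ZMod p) × ZMod p // Bad v} : ℕ) : ℝ) =
      (p : ℝ) ^ (n + 1) - ((p : ℝ) - 1) ^ n := by
    have h4 : ((Nat.card {v : (Fin n → ZMod p) × ZMod p // Bad v} : ℕ) : ℝ) +
        (((p - 1 : ℕ) : ℝ)) ^ n = (p : ℝ) ^ (n + 1) := by exact_mod_cast hcard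
    rw [Nat.cast_sub hp.one_le, Nat.cast_one] at h4
    linarith
  rw [h3]
  have h5 : (p : ℝ) ^ (n + 1) * (1 - (1 / 2) ^ n / p) = (p : ℝ) ^ (n + 1) - ((p : ℝ) / 2) ^ n := by
    rw [pow_succ, div_pow, div_pow, one_pow]
    field_simp
  rw [h5]
  have h6 : ((p : ℝ) / 2) ^ n ≤ ((p : ℝ) - 1) ^ n := by
    apply pow_le_pow_left₀ (by positivity)
    linarith
  linarith

/-- number of bad residues modulo a product of primes -/
theorem card_bad_prod (T : Finset ℕ) (hT : ∀ p ∈ T, p.Prime) (n : ℕ) (Q : ℕ)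
    (hQ : Q = ∏ p ∈ T, p) :
    ((Nat.card {v : (Fin n → ZMod Q) × ZMod Q //
      ∀ p ∈ T, ∀ h : p ∣ Q, Bad ((fun i => ZMod.castHom h (ZMod p) (v.1 i)),
        ZMod.castHom h (ZMod p) v.2)} : ℕ) : ℝ) ≤
      (Q : ℝ) ^ (n + 1) * Real.exp (-(1 / 2) ^ n * ∑ p ∈ T, 1 / (p : ℝ)) := by
  classical
  have hdvd : ∀ p ∈ T, p ∣ Q := fun p hp => hQ ▸ Finset.dvd_prod_of_mem _ hp
  have hQ0 : Q ≠ 0 := by
    rw [hQ]
    exact Finset.prod_ne_zero_iff.mpr fun p hp => (hT p hp).ne_zero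
  have : NeZero Q := ⟨hQ0⟩
  have hinst : ∀ p : T, NeZero (p : ℕ) := fun p => ⟨(hT p p.2).ne_zero⟩
  -- injection into the product
  let φ : {v : (Fin n → ZMod Q) × ZMod Q //
      ∀ p ∈ T, ∀ h : p ∣ Q, Bad ((fun i => ZMod.castHom h (ZMod p) (v.1 i)),
        ZMod.castHom h (ZMod p) v.2)} →
      ∀ p : T, {v : (Fin n → ZMod (p : ℕ)) × ZMod (p : ℕ) // Bad v} := fun v p =>
    ⟨((fun i => ZMod.castHom (hdvd p p.2) (ZMod (p : ℕ)) (v.1.1 i)),
      ZMod.castHom (hdvd p p.2) (ZMod (p : ℕ)) v.1.2), v.2 p p.2 (hdvd p p.2)⟩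
  have hsep : ∀ x y : ZMod Q, (∀ p : T, ZMod.castHom (hdvd p p.2) (ZMod (p : ℕ)) x =
      ZMod.castHom (hdvd p p.2) (ZMod (p : ℕ)) y) → x = y := by
    intro x y hxy
    obtain ⟨a, rfl⟩ := ZMod.intCast_surjective x
    obtain ⟨b, rfl⟩ := ZMod.intCast_surjective y
    rw [← sub_eq_zero, ← Int.cast_sub, ZMod.intCast_zmod_eq_zero_iff_dvd, hQ, Nat.cast_prod]
    apply Finset.prod_dvd_of_coprime
    · intro p hp q hq hpq
      show IsCoprime ((p : ℕ) : ℤ) ((q : ℕ) : ℤ)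
      rw [Nat.isCoprime_iff_coprime]
      exact (Nat.coprime_primes (hT p hp) (hT q hq)).mpr hpq
    · intro p hp
      have h1 := hxy ⟨p, hp⟩
      rw [map_intCast, map_intCast, ← sub_eq_zero, ← Int.cast_sub,
        ZMod.intCast_zmod_eq_zero_iff_dvd] at h1
      exact h1
  have hφ : Function.Injective φ := by
    rintro ⟨⟨a, N⟩, h⟩ ⟨⟨b, M⟩, h'⟩ heq
    have h1 : ∀ p : T, _ := fun p => congrArg Subtype.val (congrFun heq p)
    simp only [Subtype.mk.injEq, Prod.mk.injEq]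
    constructor
    · funext i
      apply hsep
      intro p
      exact congrFun (Prod.ext_iff.mp (h1 p)).1 i
    · apply hsep
      intro p
      exact (Prod.ext_iff.mp (h1 p)).2
  have hle := Nat.card_le_card_of_injective φ hφ
  rw [Nat.card_pi] at hle
  have h2 : ((∏ p : T, Nat.card {v : (Fin n → ZMod (p : ℕ)) × ZMod (p : ℕ) // Bad v} : ℕ) : ℝ) ≤
      ∏ p : T, (((p : ℕ) : ℝ) ^ (n + 1) * Real.exp (-((1 / 2) ^ n / ((p : ℕ) : ℝ)))) := by
    rw [Nat.cast_prod]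
    apply Finset.prod_le_prod
    · intro p _
      positivity
    · intro p _
      refine (card_bad (p : ℕ) (hT p p.2) n).trans ?_
      apply mul_le_mul_of_nonneg_left _ (by positivity)
      have := Real.add_one_le_exp (-((1 / 2 : ℝ) ^ n / ((p : ℕ) : ℝ)))
      linarith
  have h3 : ∏ p : T, (((p : ℕ) : ℝ) ^ (n + 1) * Real.exp (-((1 / 2) ^ n / ((p : ℕ) : ℝ)))) =
      (Q : ℝ) ^ (n + 1) * Real.exp (-(1 / 2) ^ n * ∑ p ∈ T, 1 / (p : ℝ)) := by
    rw [Finset.prod_mul_distrib, Finset.prod_pow, ← Real.exp_sum]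
    congr 1
    · congr 1
      rw [hQ, Nat.cast_prod]
      exact Finset.prod_coe_sort T (fun p => (p : ℝ))
    · congr 1
      rw [Finset.mul_sum, ← Finset.sum_coe_sort T (fun p => -(1 / 2 : ℝ) ^ n * (1 / (p : ℝ)))]
      refine Finset.sum_congr rfl fun p _ => ?_
      ring
  rw [← h3]
  exact le_trans (by exact_mod_cast hle) h2

open Classical in
theorem dn : DNStmt := by
  intro n p₀ ε hε
  -- choose the set of primes
  have hexp : ∃ M : ℝ, 2 * 4 ^ n * Real.exp (-(1 / 2) ^ n * M) ≤ ε := by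
    have h1 : Filter.Tendsto (fun M : ℝ => 2 * 4 ^ n * Real.exp (-(1 / 2) ^ n * M))
        Filter.atTop (nhds (2 * 4 ^ n * 0)) := by
      apply Filter.Tendsto.const_mul
      apply Real.tendsto_exp_atBot.comp
      apply Filter.Tendsto.const_mul_atTop_of_neg _ Filter.tendsto_id
      have : (0 : ℝ) < (1 / 2) ^ n := by positivity
      linarith
    rw [mul_zero] at h1
    obtain ⟨M, hM⟩ := (h1.eventually (gt_mem_nhds hε)).exists
    exact ⟨M, hM.le⟩
  obtain ⟨M, hM⟩ := hexp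
  obtain ⟨T, hT, hTM⟩ := exists_primes p₀ M
  obtain ⟨Q, hQ⟩ : ∃ Q : ℕ, Q = ∏ p ∈ T, p := ⟨_, rfl⟩
  have hQ0 : 0 < Q := by
    rw [hQ]
    exact Finset.prod_pos fun p hp => (hT p hp).1.pos
  have : NeZero Q := ⟨hQ0.ne'⟩
  refine ⟨Q, fun H hH => ?_⟩
  have hHpos : 0 < H := lt_of_lt_of_le hQ0 hH
  have hQz : (0 : ℤ) < (Q : ℤ) := by exact_mod_cast hQ0
  set q : ℕ := H / Q with hq
  have hq1 : 1 ≤ q := (Nat.one_le_div_iff hQ0).mpr hH
  -- the set of bad residues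
  let B := {v : (Fin n → ZMod Q) × ZMod Q //
      ∀ p ∈ T, ∀ h : p ∣ Q, Bad ((fun i => ZMod.castHom h (ZMod p) (v.1 i)),
        ZMod.castHom h (ZMod p) v.2)}
  have hBf : Finite B := inferInstance
  let bad : Finset ((Fin n → ℤ) × ℤ) := (box n H).filter fun w => ¬ ∃ p : ℕ, p.Prime ∧ p₀ ≤ p ∧
    (p : ℤ) ∣ w.2 ∧ ∀ i, ¬ (p : ℤ) ∣ w.1 i
  let I1 : Type := Finset.Icc (-(q : ℤ) - 1) (q : ℤ)
  let I2 : Type := Finset.Icc (0 : ℤ) (q : ℤ)
  have hmemq : ∀ a : ℤ, a ∈ Finset.Icc (-(H : ℤ)) H → a / (Q : ℤ) ∈ Finset.Icc (-(q : ℤ) - 1) (q : ℤ) := by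
    intro a ha
    rw [Finset.mem_Icc] at ha ⊢
    have hqe : (q : ℤ) = (H : ℤ) / (Q : ℤ) := by rw [hq]; exact Int.natCast_div H Q
    constructor
    · have h1 : (H : ℤ) < (Q : ℤ) * (q + 1) := by
        rw [hqe, mul_comm]
        exact Int.lt_ediv_add_one_mul_self _ hQz
      have h2 : (-(q : ℤ) - 1) * Q ≤ a := by nlinarith
      exact Int.le_ediv_of_mul_le hQz h2
    · rw [hqe]
      exact Int.ediv_le_ediv hQz ha.2
  have hmemq2 : ∀ a : ℤ, a ∈ Finset.Icc (1 : ℤ) H → a / (Q : ℤ) ∈ Finset.Icc (0 : ℤ) (q : ℤ) := by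
    intro a ha
    rw [Finset.mem_Icc] at ha ⊢
    have hqe : (q : ℤ) = (H : ℤ) / (Q : ℤ) := by rw [hq]; exact Int.natCast_div H Q
    constructor
    · exact Int.ediv_nonneg (by linarith) hQz.le
    · rw [hqe]
      exact Int.ediv_le_ediv hQz ha.2
  have hbox : ∀ w ∈ bad, (∀ i, w.1 i ∈ Finset.Icc (-(H : ℤ)) H) ∧ w.2 ∈ Finset.Icc (1 : ℤ) H := by
    intro w hw
    have h1 := (Finset.mem_filter.mp hw).1
    unfold box at h1
    rw [Finset.mem_product, Fintype.mem_piFinset] at h1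
    exact h1
  have hbadT : ∀ w ∈ bad, ∀ p ∈ T, ∀ h : p ∣ Q, Bad ((fun i => ZMod.castHom h (ZMod p)
      ((w.1 i : ℤ) : ZMod Q)), ZMod.castHom h (ZMod p) ((w.2 : ℤ) : ZMod Q)) := by
    intro w hw p hp h
    have h1 := (Finset.mem_filter.mp hw).2
    rintro ⟨h2, h3⟩
    apply h1
    refine ⟨p, (hT p hp).1, (hT p hp).2, ?_, ?_⟩
    · simp only [map_intCast] at h2
      exact (ZMod.intCast_zmod_eq_zero_iff_dvd _ _).mp h2
    · intro i hi
      apply h3 i
      simp only [map_intCast]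
      exact (ZMod.intCast_zmod_eq_zero_iff_dvd _ _).mpr hi
  let ψ : bad → B × (Fin n → I1) × I2 := fun w =>
    (⟨((fun i => ((w.1.1 i : ℤ) : ZMod Q)), ((w.1.2 : ℤ) : ZMod Q)), hbadT w.1 w.2⟩,
      (fun i => ⟨w.1.1 i / (Q : ℤ), hmemq _ ((hbox w.1 w.2).1 i)⟩),
      ⟨w.1.2 / (Q : ℤ), hmemq2 _ (hbox w.1 w.2).2⟩)
  have hrec : ∀ a b : ℤ, ((a : ℤ) : ZMod Q) = ((b : ℤ) : ZMod Q) → a / (Q : ℤ) = b / (Q : ℤ) → a = b := by
    intro a b h1 h2
    rw [ZMod.intCast_eq_intCast_iff] at h1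
    have h3 : a % (Q : ℤ) = b % (Q : ℤ) := h1
    rw [← Int.mul_ediv_add_emod a Q, ← Int.mul_ediv_add_emod b Q, h2, h3]
  have hψ : Function.Injective ψ := by
    rintro ⟨⟨a, N⟩, hw⟩ ⟨⟨b, N'⟩, hw'⟩ heq
    have h1 := congrArg (fun z => z.1.1.1) heq
    have h2 := congrArg (fun z => z.1.1.2) heq
    have h3 := congrArg (fun z => z.2.1) heq
    have h4 := congrArg (fun z => z.2.2.1) heq
    have h5 : a = b := by
      funext i
      exact hrec _ _ (congrFun h1 i) (congrArg Subtype.val (congrFun h3 i))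
    have h6 : N = N' := hrec _ _ h2 h4
    subst h5
    subst h6
    rfl
  have hcard := Nat.card_le_card_of_injective ψ hψ
  rw [Nat.card_prod, Nat.card_prod, Nat.card_fun] at hcard
  have hI1 : Nat.card I1 = 2 * q + 2 := by
    have h1 : Nat.card I1 = (Finset.Icc (-(q : ℤ) - 1) (q : ℤ)).card := by
      show Nat.card (Finset.Icc (-(q : ℤ) - 1) (q : ℤ) : Finset ℤ) = _
      rw [Nat.card_eq_fintype_card, Fintype.card_coe]
    rw [h1, Int.card_Icc]
    omega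
  have hI2 : Nat.card I2 = q + 1 := by
    have h1 : Nat.card I2 = (Finset.Icc (0 : ℤ) (q : ℤ)).card := by
      show Nat.card (Finset.Icc (0 : ℤ) (q : ℤ) : Finset ℤ) = _
      rw [Nat.card_eq_fintype_card, Fintype.card_coe]
    rw [h1, Int.card_Icc]
    omega
  have hbc : Nat.card bad = bad.card := by
    rw [Nat.card_eq_fintype_card, Fintype.card_coe]
  rw [hI1, hI2, Nat.card_fin, hbc] at hcard
  have hBc := card_bad_prod T (fun p hp => (hT p hp).1) n Q hQ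
  have hQr : (0 : ℝ) < (Q : ℝ) := by exact_mod_cast hQ0
  have hqr : (q : ℝ) ≤ (H : ℝ) / Q := by
    rw [hq]; exact Nat.cast_div_le
  have hq1r : (1 : ℝ) ≤ (q : ℝ) := by exact_mod_cast hq1
  have hHr : (0 : ℝ) < (H : ℝ) := by exact_mod_cast hHpos
  have hfin : (bad.card : ℝ) ≤ ε * (H : ℝ) ^ (n + 1) := by
    have h1 : (bad.card : ℝ) ≤ (Nat.card B : ℝ) * ((2 * (q : ℝ) + 2) ^ n * ((q : ℝ) + 1)) := by
      exact_mod_cast hcard
    have h2 : (2 * (q : ℝ) + 2) ^ n * ((q : ℝ) + 1) ≤ (4 * ((H : ℝ) / Q)) ^ n * (2 * ((H : ℝ) / Q)) := by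
      apply mul_le_mul
      · apply pow_le_pow_left₀ (by positivity)
        linarith
      · linarith
      · positivity
      · positivity
    have h3 : (Nat.card B : ℝ) ≤
        (Q : ℝ) ^ (n + 1) * Real.exp (-(1 / 2) ^ n * ∑ p ∈ T, 1 / (p : ℝ)) := hBc
    have h4 : Real.exp (-(1 / 2) ^ n * ∑ p ∈ T, 1 / (p : ℝ)) ≤ Real.exp (-(1 / 2) ^ n * M) := by
      apply Real.exp_le_exp.mpr
      have : (0 : ℝ) < (1 / 2) ^ n := by positivity
      nlinarith
    calc (bad.card : ℝ) ≤ (Nat.card B : ℝ) * ((2 * (q : ℝ) + 2) ^ n * ((q : ℝ) + 1)) := h1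
      _ ≤ ((Q : ℝ) ^ (n + 1) * Real.exp (-(1 / 2) ^ n * M)) *
          ((4 * ((H : ℝ) / Q)) ^ n * (2 * ((H : ℝ) / Q))) := by
          apply mul_le_mul _ h2 (by positivity) (by positivity)
          exact h3.trans (mul_le_mul_of_nonneg_left h4 (by positivity))
      _ = (2 * 4 ^ n * Real.exp (-(1 / 2) ^ n * M)) * (H : ℝ) ^ (n + 1) := by
          have h5 : (Q : ℝ) * ((H : ℝ) / Q) = H := by field_simp
          have h6 : (Q : ℝ) ^ (n + 1) * ((H : ℝ) / Q) ^ (n + 1) = (H : ℝ) ^ (n + 1) := by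
            rw [← mul_pow, h5]
          rw [← h6]
          ring
      _ ≤ ε * (H : ℝ) ^ (n + 1) := mul_le_mul_of_nonneg_right hM (by positivity)
  exact hfin

end Pool.Agent.ZPT.H88
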