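import Pool.Agent.ZPT.Stmts

/-!
Squad ZPT, rows TB, TI, TS: Tate parameters.
-/

set_option autoImplicit false

namespace Pool.Agent.ZPT.H88

open Pool.Agent.ZPT

noncomputable section

section
variable {K : Type} [NormedField K] [CharZero K] [IsUltrametricDist K]

theorem coef_le {U : PowerSeries ℚ} (hU : IsU U) {p : ℕ} (hp : p.Prime) (h5 : 5 ≤ p)
    (hE : Ext p K) (n : ℕ) : ‖((PowerSeries.coeff n U : ℚ) : K)‖ ≤ 1 := by
  rw [hE]
  exact_mod_cast hU.pint p hp h5 n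

theorem term_le {U : PowerSeries ℚ} (hU : IsU U) {p : ℕ} (hp : p.Prime) (h5 : 5 ≤ p)
    (hE : Ext p K) (n : ℕ) (q : K) : ‖((PowerSeries.coeff n U : ℚ) : K) * q ^ n‖ ≤ ‖q‖ ^ n := by
  rw [norm_mul, norm_pow]
  have h1 := coef_le hU hp h5 hE n
  have h2 : (0 : ℝ) ≤ ‖q‖ ^ n := by positivity
  nlinarith

theorem summ [CompleteSpace K] {U : PowerSeries ℚ} (hU : IsU U) {p : ℕ} (hp : p.Prime)
    (h5 : 5 ≤ p) (hE : Ext p K) (q : K) (hq : ‖q‖ < 1) :
    Summable fun n : ℕ => ((PowerSeries.coeff n U : ℚ) : K) * q ^ n :=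
  Summable.of_norm_bounded (summable_geometric_of_lt_one (norm_nonneg q) hq)
    fun n => term_le hU hp h5 hE n q

/-- The value of the series. -/
def SS (U : PowerSeries ℚ) (q : K) : K := ∑' n : ℕ, ((PowerSeries.coeff n U : ℚ) : K) * q ^ n

theorem jv_eq (U : PowerSeries ℚ) (q : K) : jv U q = SS U q / q := rfl

theorem SS_sub_one [CompleteSpace K] {U : PowerSeries ℚ} (hU : IsU U) {p : ℕ} (hp : p.Prime)
    (h5 : 5 ≤ p) (hE : Ext p K) (q : K) (hq : ‖q‖ < 1) : ‖SS U q - 1‖ ≤ ‖q‖ := by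
  have hs := summ hU hp h5 hE q hq
  have h1 : SS U q = 1 + ∑' n : ℕ, ((PowerSeries.coeff (n + 1) U : ℚ) : K) * q ^ (n + 1) := by
    unfold SS
    rw [hs.tsum_eq_zero_add, hU.c0]
    simp
  rw [h1, add_sub_cancel_left]
  refine IsUltrametricDist.norm_tsum_le_of_forall_le_of_nonneg (norm_nonneg q) fun n => ?_
  refine (term_le hU hp h5 hE (n + 1) q).trans ?_
  rw [pow_succ]
  have h2 : ‖q‖ ^ n ≤ 1 := pow_le_one₀ (norm_nonneg q) hq.le
  nlinarith [norm_nonneg q]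

theorem norm_SS [CompleteSpace K] {U : PowerSeries ℚ} (hU : IsU U) {p : ℕ} (hp : p.Prime)
    (h5 : 5 ≤ p) (hE : Ext p K) (q : K) (hq : ‖q‖ < 1) : ‖SS U q‖ = 1 := by
  have h1 := SS_sub_one hU hp h5 hE q hq
  have h2 : ‖SS U q - 1‖ < 1 := lt_of_le_of_lt h1 hq
  have h3 : ‖(SS U q - 1) + 1‖ = max ‖SS U q - 1‖ ‖(1 : K)‖ := by
    apply IsUltrametricDist.norm_add_eq_max_of_norm_ne_norm
    rw [norm_one]
    exact h2.ne
  rw [sub_add_cancel, norm_one, max_eq_right h2.le] at h3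
  exact h3

theorem pow_sub_le {q q' : K} (hq : ‖q‖ ≤ 1) (hq' : ‖q'‖ ≤ 1) (n : ℕ) :
    ‖q ^ n - q' ^ n‖ ≤ ‖q - q'‖ := by
  induction n with
  | zero => simp
  | succ n ih =>
    have h1 : q ^ (n + 1) - q' ^ (n + 1) = q * (q ^ n - q' ^ n) + (q - q') * q' ^ n := by ring
    rw [h1]
    refine (IsUltrametricDist.norm_add_le_max _ _).trans (max_le ?_ ?_)
    · rw [norm_mul]
      nlinarith [norm_nonneg q, norm_nonneg (q ^ n - q' ^ n)]
    · rw [norm_mul, norm_pow]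
      have h2 : ‖q'‖ ^ n ≤ 1 := pow_le_one₀ (norm_nonneg q') hq'
      nlinarith [norm_nonneg (q - q')]

theorem SS_sub_le [CompleteSpace K] {U : PowerSeries ℚ} (hU : IsU U) {p : ℕ} (hp : p.Prime)
    (h5 : 5 ≤ p) (hE : Ext p K) (q q' : K) (hq : ‖q‖ < 1) (hq' : ‖q'‖ < 1) :
    ‖SS U q - SS U q'‖ ≤ ‖q - q'‖ := by
  unfold SS
  rw [← (summ hU hp h5 hE q hq).tsum_sub (summ hU hp h5 hE q' hq')]
  refine IsUltrametricDist.norm_tsum_le_of_forall_le_of_nonneg (norm_nonneg _) fun n => ?_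
  rw [← mul_sub, norm_mul]
  have h1 := coef_le hU hp h5 hE n
  have h2 := pow_sub_le hq.le hq'.le n
  nlinarith [norm_nonneg (q ^ n - q' ^ n)]

end

theorem tb : TBStmt := by
  intro U hU p hp h5 K _ _ _ _ hE q hq0 hq1
  have hqne : q ≠ 0 := norm_pos_iff.mp hq0
  have h1 : jv U q * q = SS U q := by rw [jv_eq, div_mul_cancel₀ _ hqne]
  refine ⟨?_, ?_⟩
  · rw [h1]
    exact SS_sub_one hU hp h5 hE q hq1
  · rw [jv_eq, norm_div, norm_SS hU hp h5 hE q hq1, one_div]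

theorem ti : TIStmt := by
  intro U hU p hp h5 K _ _ _ _ hE q q' hq0 hq1 hq0' hq1' h
  have hqne : q ≠ 0 := norm_pos_iff.mp hq0
  have hqne' : q' ≠ 0 := norm_pos_iff.mp hq0'
  rw [jv_eq, jv_eq, div_eq_div_iff hqne hqne'] at h
  by_contra hne
  have hpos : 0 < ‖q - q'‖ := norm_pos_iff.mpr (sub_ne_zero.mpr hne)
  have hs := summ hU hp h5 hE q hq1
  have hs' := summ hU hp h5 hE q' hq1'
  have h1 : SS U q * q' - SS U q' * q =
      ∑' n : ℕ, ((PowerSeries.coeff n U : ℚ) : K) * (q ^ n * q' - q' ^ n * q) := by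
    unfold SS
    rw [← hs.tsum_mul_right, ← hs'.tsum_mul_right, ← (hs.mul_right q').tsum_sub (hs'.mul_right q)]
    refine tsum_congr fun n => ?_
    ring
  have hs2 : Summable fun n : ℕ =>
      ((PowerSeries.coeff n U : ℚ) : K) * (q ^ n * q' - q' ^ n * q) := by
    refine ((hs.mul_right q').sub (hs'.mul_right q)).congr fun n => ?_
    ring
  rw [h, sub_self, hs2.tsum_eq_zero_add, hU.c0] at h1
  have h2 : q - q' =
      ∑' n : ℕ, ((PowerSeries.coeff (n + 1) U : ℚ) : K) * (q ^ (n + 1) * q' - q' ^ (n + 1) * q) := by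
    have h3 : ((1 : ℚ) : K) * (q ^ 0 * q' - q' ^ 0 * q) = q' - q := by
      rw [pow_zero, pow_zero, one_mul, one_mul]; push_cast; ring
    rw [h3] at h1
    linear_combination h1
  have h4 : ‖q - q'‖ ≤ (‖q‖ * ‖q'‖) * ‖q - q'‖ := by
    have hnn : 0 ≤ (‖q‖ * ‖q'‖) * ‖q - q'‖ := by positivity
    conv_lhs => rw [h2]
    refine IsUltrametricDist.norm_tsum_le_of_forall_le_of_nonneg hnn fun n => ?_
    have h5' : q ^ (n + 1) * q' - q' ^ (n + 1) * q = (q * q') * (q ^ n - q' ^ n) := by ring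
    rw [h5', norm_mul, norm_mul, norm_mul]
    have h6 := coef_le hU hp h5 hE (n + 1)
    have h7 := pow_sub_le hq1.le hq1'.le n
    have h8 : 0 ≤ ‖q‖ * ‖q'‖ := by positivity
    have h9 : ‖q‖ * ‖q'‖ * ‖q ^ n - q' ^ n‖ ≤ ‖q‖ * ‖q'‖ * ‖q - q'‖ :=
      mul_le_mul_of_nonneg_left h7 h8
    have h10 : 0 ≤ ‖q‖ * ‖q'‖ * ‖q ^ n - q' ^ n‖ := by positivity
    nlinarith
  have h5'' : ‖q‖ * ‖q'‖ < 1 := by nlinarith
  nlinarith

theorem ts : TSStmt := by
  intro U hU p hp h5 K _ _ _ _ hE x hx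
  have hx0 : x ≠ 0 := by
    rintro rfl
    rw [norm_zero] at hx
    linarith
  set r : ℝ := ‖x‖⁻¹ with hr
  have hr0 : 0 < r := by rw [hr]; positivity
  have hr1 : r < 1 := inv_lt_one_of_one_lt₀ hx
  let B : Set K := Metric.closedBall 0 r
  have hB : ∀ q ∈ B, ‖q‖ < 1 := fun q hq =>
    lt_of_le_of_lt (by simpa [B] using hq) hr1
  let f : K → K := fun q => SS U q / x
  have hmaps : Set.MapsTo f B B := by
    intro q hq
    simp only [B, Metric.mem_closedBall, dist_zero_right, f]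
    rw [norm_div, norm_SS hU hp h5 hE q (hB q hq), one_div]
  have hlip : LipschitzWith (Real.toNNReal r) (hmaps.restrict f B B) := by
    apply LipschitzWith.of_dist_le_mul
    rintro ⟨a, ha⟩ ⟨b, hb⟩
    rw [Real.coe_toNNReal r hr0.le, Subtype.dist_eq, Subtype.dist_eq]
    simp only [Set.MapsTo.val_restrict_apply, dist_eq_norm, f]
    rw [← sub_div, norm_div, div_eq_mul_inv, mul_comm]
    exact mul_le_mul_of_nonneg_left (SS_sub_le hU hp h5 hE a b (hB a ha) (hB b hb)) hr0.le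
  have hcontr : ContractingWith (Real.toNNReal r) (hmaps.restrict f B B) := by
    refine ⟨?_, hlip⟩
    rw [← Real.toNNReal_one]
    exact (Real.toNNReal_lt_toNNReal_iff (by norm_num)).mpr hr1
  have hcomp : IsComplete B := (Metric.isClosed_closedBall).isComplete
  have h0 : (0 : K) ∈ B := by simp [B, hr0.le]
  obtain ⟨q, hqB, hfix, -, -⟩ := hcontr.exists_fixedPoint' hcomp hmaps h0 (edist_ne_top _ _)
  have hfq : SS U q / x = q := hfix
  have hq1 := hB q hqB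
  have hnq : ‖q‖ = r := by
    rw [← hfq, norm_div, norm_SS hU hp h5 hE q hq1, one_div]
  have hqne : q ≠ 0 := by
    rintro rfl
    rw [norm_zero] at hnq
    linarith
  refine ⟨q, by rw [hnq]; exact hr0, hq1, ?_⟩
  rw [jv_eq]
  rw [div_eq_iff hx0] at hfq
  rw [hfq]
  field_simp

end

end Pool.Agent.ZPT.H88
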