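import Pool.Agent.ZPT.Stmts

/-!
Squad ZPT, rows GR, FO: good reduction, residues of algebraic units.
-/

set_option autoImplicit false

namespace Pool.Agent.ZPT.H88

open Pool.Agent.ZPT Polynomial

noncomputable section

/-- integers have norm at most one -/
theorem norm_int_le {p : ℕ} (hp : p.Prime) {K : Type} [NormedField K] [CharZero K]
    (hE : Ext p K) (z : ℤ) : ‖(z : K)‖ ≤ 1 := by
  have := Fact.mk hp
  have h := hE (z : ℚ)
  rw [Rat.cast_intCast] at h
  rw [h]
  exact_mod_cast padicNorm.of_int z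

/-- an integer prime to `p` has norm one -/
theorem norm_int_eq {p : ℕ} (hp : p.Prime) {K : Type} [NormedField K] [CharZero K]
    (hE : Ext p K) (z : ℤ) (hz : ¬ (p : ℤ) ∣ z) : ‖(z : K)‖ = 1 := by
  have := Fact.mk hp
  have h := hE (z : ℚ)
  rw [Rat.cast_intCast] at h
  rw [h]
  have h2 : padicNorm p (z : ℚ) = 1 := (padicNorm.int_eq_one_iff z).mpr hz
  rw [h2]; simp

/-- multiples of `p` have norm at most `1/p` -/
theorem norm_p_lt {p : ℕ} (hp : p.Prime) {K : Type} [NormedField K] [CharZero K]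
    (hE : Ext p K) : ‖(p : K)‖ < 1 := by
  have := Fact.mk hp
  have h := hE (p : ℚ)
  rw [Rat.cast_natCast] at h
  rw [h]
  exact_mod_cast padicNorm.padicNorm_p_lt_one_of_prime

/-- evaluation of an integer polynomial at an element of norm at most one -/
theorem norm_aeval_le {p : ℕ} (hp : p.Prime) {K : Type} [NormedField K] [CharZero K]
    [IsUltrametricDist K] (hE : Ext p K) (f : ℤ[X]) (x : K) (hx : ‖x‖ ≤ 1) :
    ‖aeval x f‖ ≤ 1 := by
  rw [aeval_eq_sum_range]
  refine IsUltrametricDist.norm_sum_le_of_forall_le_of_nonneg zero_le_one fun i _ => ?_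
  rw [zsmul_eq_mul, norm_mul, norm_pow]
  have h1 := norm_int_le hp hE (f.coeff i)
  have h2 : ‖x‖ ^ i ≤ 1 := pow_le_one₀ (norm_nonneg x) hx
  nlinarith [norm_nonneg ((f.coeff i : ℤ) : K), pow_nonneg (norm_nonneg x) i]

theorem gr : GRStmt := by
  classical
  intro S hS
  -- integer polynomials
  have h1 : ∀ g : S, ∃ f : ℤ[X], f ≠ 0 ∧ aeval (g : ℂ) f = 0 := fun g => by
    have := hS g g.2
    rw [← IsFractionRing.isAlgebraic_iff ℤ ℚ ℂ] at this
    exact this
  choose f hf0 hf using h1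
  refine ⟨(∑ g : S, (f g).leadingCoeff.natAbs) + 1, ?_⟩
  intro p hp hpp K _ _ _ hE ι g hg
  by_contra hcon
  push Not at hcon
  set F := f ⟨(g : ℂ), hg⟩ with hF
  have hF0 : F ≠ 0 := hf0 _
  have hFg : aeval (ι g) F = 0 := by
    have h2 : aeval (g : ℂ) F = 0 := hf ⟨(g : ℂ), hg⟩
    have h3 : aeval g F = 0 := by
      have h4 : (algebraMap Qb ℂ) (aeval g F) = aeval (g : ℂ) F := by
        rw [← aeval_algebraMap_apply]; rfl
      rw [h2] at h4
      exact (map_eq_zero_iff _ (algebraMap Qb ℂ).injective).mp h4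
    have h5 : aeval (ι g) F = ι (aeval g F) := by
      rw [aeval_def, aeval_def, Polynomial.hom_eval₂]
      congr 1
      exact RingHom.ext_int _ _
    rw [h5, h3, map_zero]
  have hlead : ‖((F.leadingCoeff : ℤ) : K)‖ = 1 := by
    apply norm_int_eq hp hE
    intro hdvd
    have h6 : F.leadingCoeff.natAbs ≤ ∑ g : S, (f g).leadingCoeff.natAbs :=
      Finset.single_le_sum (f := fun g : S => (f g).leadingCoeff.natAbs)
        (fun _ _ => Nat.zero_le _) (Finset.mem_univ (⟨(g : ℂ), hg⟩ : S))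
    have h7 : p ∣ F.leadingCoeff.natAbs := Int.natCast_dvd.mp hdvd
    have h8 : F.leadingCoeff.natAbs ≠ 0 := by
      simp [hF0]
    have h9 := Nat.le_of_dvd (Nat.pos_of_ne_zero h8) h7
    omega
  rw [aeval_eq_sum_range, Finset.sum_range_succ] at hFg
  have h10 : ‖∑ i ∈ Finset.range F.natDegree, F.coeff i • ι g ^ i‖ < ‖ι g‖ ^ F.natDegree := by
    rcases Nat.eq_zero_or_pos F.natDegree with hd | hd
    · rw [hd]; simp
    · have h11 : ‖∑ i ∈ Finset.range F.natDegree, F.coeff i • ι g ^ i‖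
          ≤ ‖ι g‖ ^ (F.natDegree - 1) := by
        refine IsUltrametricDist.norm_sum_le_of_forall_le_of_nonneg (by positivity) fun i hi => ?_
        rw [zsmul_eq_mul, norm_mul, norm_pow]
        have h12 := norm_int_le hp hE (F.coeff i)
        have h13 : ‖ι g‖ ^ i ≤ ‖ι g‖ ^ (F.natDegree - 1) := by
          apply pow_le_pow_right₀ hcon.le
          have := Finset.mem_range.mp hi
          omega
        nlinarith [norm_nonneg ((F.coeff i : ℤ) : K), pow_nonneg (norm_nonneg (ι g)) i]
      exact lt_of_le_of_lt h11 (pow_lt_pow_right₀ hcon (by omega))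
  have h14 : F.coeff F.natDegree • ι g ^ F.natDegree =
      -∑ i ∈ Finset.range F.natDegree, F.coeff i • ι g ^ i := by
    linear_combination hFg
  have h15 : ‖F.coeff F.natDegree • ι g ^ F.natDegree‖ = ‖ι g‖ ^ F.natDegree := by
    rw [zsmul_eq_mul, norm_mul, norm_pow, coeff_natDegree, hlead, one_mul]
  rw [h14, norm_neg] at h15
  linarith

theorem fo : FOStmt := by
  classical
  intro p hp K _ _ _ hE ι u hu
  have := Fact.mk hp
  -- a primitive integer polynomial
  obtain ⟨f, hf0, hf⟩ : ∃ f : ℤ[X], f ≠ 0 ∧ aeval u f = 0 := by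
    have h1 : IsAlgebraic ℚ u := (algebraicClosure.isAlgebraic ℚ ℂ).isAlgebraic u
    rw [← IsFractionRing.isAlgebraic_iff ℤ ℚ Qb] at h1
    exact h1
  set g := f.primPart with hg
  have hgprim : g.IsPrimitive := f.isPrimitive_primPart
  have hgu : aeval u g = 0 := by
    have h2 : f = C f.content * g := f.eq_C_content_mul_primPart
    rw [h2, map_mul, aeval_C] at hf
    rcases mul_eq_zero.mp hf with h3 | h3
    · exfalso
      have h4 : f.content ≠ 0 := by rwa [Ne, content_eq_zero_iff]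
      rw [eq_intCast, Int.cast_eq_zero] at h3
      exact h4 h3
    · exact h3
  have hgι : aeval (ι u) g = 0 := by
    have h5 : aeval (ι u) g = ι (aeval u g) := by
      rw [aeval_def, aeval_def, Polynomial.hom_eval₂]
      congr 1
      exact RingHom.ext_int _ _
    rw [h5, hgu, map_zero]
  -- reduction modulo p
  set gb : (ZMod p)[X] := g.map (Int.castRingHom (ZMod p)) with hgb
  have hgb0 : gb ≠ 0 := by
    intro h
    have h6 : (p : ℤ) ∣ g.content := by
      rw [dvd_content_iff_C_dvd]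
      rw [C_dvd_iff_dvd_coeff]
      intro i
      have h7 : gb.coeff i = 0 := by rw [h]; simp
      rw [hgb, coeff_map, eq_intCast] at h7
      exact (ZMod.intCast_zmod_eq_zero_iff_dvd _ _).mp h7
    rw [hgprim.content_eq_one] at h6
    have h8 := Int.natCast_dvd_natCast.mp (by simpa using h6 : ((p : ℕ) : ℤ) ∣ ((1 : ℕ) : ℤ))
    exact hp.one_lt.ne' (Nat.dvd_one.mp h8)
  -- two powers of X agree modulo gb
  obtain ⟨i, j, hij, hdvd⟩ : ∃ i j : ℕ, i < j ∧ gb ∣ X ^ j - X ^ i := by
    have hdeg : ∀ q : (ZMod p)[X], (q %ₘ (gb * C gb.leadingCoeff⁻¹)).degree <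
        (gb * C gb.leadingCoeff⁻¹).degree := fun q =>
      degree_modByMonic_lt q (monic_mul_leadingCoeff_inv hgb0)
    set m : (ZMod p)[X] := gb * C gb.leadingCoeff⁻¹ with hm
    have hmm : m.Monic := monic_mul_leadingCoeff_inv hgb0
    have hfin : Finite (degreeLT (ZMod p) (m.natDegree)) :=
      Finite.of_equiv _ (degreeLTEquiv (ZMod p) m.natDegree).symm.toEquiv
    have hnot : ¬ Function.Injective (fun k : ℕ =>
        (⟨X ^ k %ₘ m, by
          rw [mem_degreeLT]
          exact (hdeg _).trans_le (by rw [degree_eq_natDegree hmm.ne_zero])⟩ :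
          degreeLT (ZMod p) m.natDegree)) := not_injective_infinite_finite _
    rw [Function.not_injective_iff] at hnot
    obtain ⟨a, b, hab, hne⟩ := hnot
    have hab' : (X ^ a : (ZMod p)[X]) %ₘ m = X ^ b %ₘ m := congrArg Subtype.val hab
    have hdv : m ∣ X ^ a - X ^ b := by
      rw [← modByMonic_eq_zero_iff_dvd hmm, sub_modByMonic, hab', sub_self]
    have hgm : gb ∣ m := ⟨C gb.leadingCoeff⁻¹, hm⟩
    rcases lt_or_gt_of_ne hne with h | h
    · refine ⟨a, b, h, ?_⟩
      have := hgm.trans hdv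
      rw [← dvd_neg, neg_sub] at this
      exact this
    · exact ⟨b, a, h, hgm.trans hdv⟩
  obtain ⟨hb, hhb⟩ := hdvd
  obtain ⟨h, hh⟩ := map_surjective (Int.castRingHom (ZMod p)) (ZMod.ringHom_surjective _) hb
  -- the difference is divisible by p
  have hdiff : (C (p : ℤ)) ∣ (X ^ j - X ^ i - g * h) := by
    rw [C_dvd_iff_dvd_coeff]
    intro k
    have h9 : (X ^ j - X ^ i - g * h : ℤ[X]).map (Int.castRingHom (ZMod p)) = 0 := by
      rw [Polynomial.map_sub, Polynomial.map_sub, Polynomial.map_mul, Polynomial.map_pow,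
        Polynomial.map_pow, map_X, hh, ← hgb, hhb, sub_self]
    have h10 : ((X ^ j - X ^ i - g * h : ℤ[X]).map (Int.castRingHom (ZMod p))).coeff k = 0 := by
      rw [h9]; simp
    rw [coeff_map, eq_intCast] at h10
    exact (ZMod.intCast_zmod_eq_zero_iff_dvd _ _).mp h10
  obtain ⟨k, hk⟩ := hdiff
  have heval : (ι u) ^ j - (ι u) ^ i = (p : K) * aeval (ι u) k := by
    have h11 := congrArg (aeval (ι u)) hk
    rw [map_sub, map_sub, map_mul, map_mul, map_pow, map_pow, aeval_X, hgι, zero_mul, sub_zero,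
      aeval_C] at h11
    rw [h11]
    simp
  refine ⟨j - i, by omega, ?_⟩
  have h12 : (ι u) ^ j - (ι u) ^ i = (ι u) ^ i * ((ι u) ^ (j - i) - 1) := by
    rw [mul_sub, ← pow_add, mul_one]
    congr 2
    omega
  have h13 : ‖(ι u) ^ (j - i) - 1‖ = ‖(ι u) ^ j - (ι u) ^ i‖ := by
    rw [h12, norm_mul, norm_pow, hu, one_pow, one_mul]
  rw [h13, heval, norm_mul]
  have h14 := norm_p_lt hp hE
  have h15 := norm_aeval_le hp hE k (ι u) hu.le
  nlinarith [norm_nonneg (p : K), norm_nonneg (aeval (ι u) k)]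

end

end Pool.Agent.ZPT.H88
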