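import Pool.Agent.Helper88_ZPT.Tate

/-!
Squad ZPT, rows KT, EH, UQ.
-/

set_option autoImplicit false

namespace Pool.Agent.ZPT.H88

open Pool.Agent.ZPT Polynomial

noncomputable section

theorem kt : KTStmt := by
  intro U hU p hp h5 K _ _ _ _ hE
  refine ⟨?_, ?_⟩
  · rintro x y ⟨q, q', h1, h2, h3, h4, h6, h7, A, B, hA, hB, hAB⟩
    exact ⟨q', q, h3, h4, h1, h2, h7, h6, B, A, hB, hA, hAB.symm⟩
  · rintro x y w ⟨q, q', h1, h2, h3, h4, h6, h7, A, B, hA, hB, hAB⟩
      ⟨r, r', k1, k2, k3, k4, k6, k7, A', B', hA', hB', hAB'⟩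
    have hq : q' = r := ti U hU p hp h5 K hE q' r h3 h4 k1 k2 (h7.trans k6.symm)
    subst hq
    refine ⟨q, r', h1, h2, k3, k4, h6, k7, A * A', B * B', Nat.mul_pos hA hA',
      Nat.mul_pos hB hB', ?_⟩
    calc q ^ (A * A') = (q ^ A) ^ A' := pow_mul _ _ _
      _ = (q' ^ B) ^ A' := by rw [hAB]
      _ = (q' ^ A') ^ B := by rw [← pow_mul, ← pow_mul, mul_comm]
      _ = (r' ^ B') ^ B := by rw [hAB']
      _ = r' ^ (B * B') := by rw [← pow_mul, mul_comm]

theorem eh : EHStmt := by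
  intro K L _ _ _ _ φ F x y
  unfold ev2
  rw [Polynomial.eval_map, Polynomial.eval_map, Polynomial.hom_eval₂]
  congr 1
  ext r <;> simp

theorem uq : UQStmt := by
  intro a b ha hb h
  -- the difference
  have key : ∀ c : ℕ → ℂ, (∀ ρ : ℝ, 0 ≤ ρ → ρ < 1 → Summable fun n : ℕ => ‖c n‖ * ρ ^ n) →
      (∀ q : ℂ, q ≠ 0 → ‖q‖ < 1 → ∑' n : ℕ, c n * q ^ n = 0) → ∀ n, c n = 0 := by
    intro c hc hz
    by_contra hcon
    push Not at hcon
    obtain ⟨N, hN, hmin⟩ : ∃ N, c N ≠ 0 ∧ ∀ m < N, c m = 0 := by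
      refine ⟨Nat.find hcon, Nat.find_spec hcon, fun m hm => ?_⟩
      exact not_not.mp (Nat.find_min hcon hm)
    have hsum : Summable fun n : ℕ => ‖c (n + N)‖ * (1 / 2 : ℝ) ^ n := by
      have h1 := (summable_nat_add_iff N).mpr (hc (1 / 2) (by norm_num) (by norm_num))
      have h2 := h1.mul_left ((2 : ℝ) ^ N)
      refine h2.congr fun n => ?_
      rw [pow_add]
      have : (2 : ℝ) ^ N * (1 / 2 : ℝ) ^ N = 1 := by rw [← mul_pow]; norm_num
      calc 2 ^ N * (‖c (n + N)‖ * ((1 / 2) ^ n * (1 / 2) ^ N))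
          = (2 ^ N * (1 / 2) ^ N) * (‖c (n + N)‖ * (1 / 2) ^ n) := by ring
        _ = _ := by rw [this, one_mul]
    -- the shifted series
    have hval : ∀ q : ℂ, q ≠ 0 → ‖q‖ < 1 → ∑' n : ℕ, c (n + N) * q ^ n = 0 := by
      intro q hq0 hq1
      have hs : Summable fun n : ℕ => c n * q ^ n := by
        apply Summable.of_norm
        refine (hc ‖q‖ (norm_nonneg q) hq1).congr fun n => ?_
        rw [norm_mul, norm_pow]
      have h1 := hs.sum_add_tsum_nat_add N
      rw [hz q hq0 hq1, Finset.sum_eq_zero, zero_add] at h1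
      · have h2 : (fun n : ℕ => c (n + N) * q ^ (n + N)) =
            fun n : ℕ => (c (n + N) * q ^ n) * q ^ N := by
          funext n; rw [pow_add]; ring
        rw [h2, tsum_mul_right] at h1
        rcases mul_eq_zero.mp h1 with h3 | h3
        · exact h3
        · exact absurd h3 (pow_ne_zero _ hq0)
      · intro m hm
        rw [hmin m (Finset.mem_range.mp hm), zero_mul]
    set S : ℝ := ∑' n : ℕ, ‖c (n + 1 + N)‖ * (1 / 2 : ℝ) ^ n with hS
    have hsum1 : Summable fun n : ℕ => ‖c (n + 1 + N)‖ * (1 / 2 : ℝ) ^ n := by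
      have h1 := (summable_nat_add_iff 1).mpr hsum
      have h2 := h1.mul_left (2 : ℝ)
      refine h2.congr fun n => ?_
      rw [pow_succ]; ring
    have hS0 : 0 ≤ S := tsum_nonneg fun n => by positivity
    -- for small q the norm of c N is bounded by |q| S
    have hbd : ∀ t : ℝ, 0 < t → t ≤ 1 / 2 → ‖c N‖ ≤ t * S := by
      intro t ht0 ht1
      have hq0 : (t : ℂ) ≠ 0 := by exact_mod_cast ht0.ne'
      have hnt : ‖(t : ℂ)‖ = t := by rw [Complex.norm_real, Real.norm_of_nonneg ht0.le]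
      have h1 := hval t hq0 (by rw [hnt]; linarith)
      have hs : Summable fun n : ℕ => c (n + N) * (t : ℂ) ^ n := by
        apply Summable.of_norm
        refine Summable.of_nonneg_of_le (fun n => norm_nonneg _) (fun n => ?_) hsum
        rw [norm_mul, norm_pow, hnt]
        exact mul_le_mul_of_nonneg_left (pow_le_pow_left₀ ht0.le ht1 n) (norm_nonneg _)
      rw [hs.tsum_eq_zero_add] at h1
      simp only [zero_add, pow_zero, mul_one] at h1
      have h2 : c N = -∑' n : ℕ, c (n + 1 + N) * (t : ℂ) ^ (n + 1) := by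
        linear_combination h1
      rw [h2, norm_neg]
      have hg : Summable fun n : ℕ => t * (‖c (n + 1 + N)‖ * (1 / 2 : ℝ) ^ n) :=
        hsum1.mul_left t
      refine (tsum_of_norm_bounded hg.hasSum fun n => ?_).trans (le_of_eq ?_)
      · rw [norm_mul, norm_pow, hnt, pow_succ]
        have h3 : t ^ n ≤ (1 / 2 : ℝ) ^ n := pow_le_pow_left₀ ht0.le ht1 n
        have h4 : ‖c (n + 1 + N)‖ * t ^ n ≤ ‖c (n + 1 + N)‖ * (1 / 2 : ℝ) ^ n :=
          mul_le_mul_of_nonneg_left h3 (norm_nonneg _)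
        calc ‖c (n + 1 + N)‖ * (t ^ n * t) = t * (‖c (n + 1 + N)‖ * t ^ n) := by ring
          _ ≤ _ := mul_le_mul_of_nonneg_left h4 ht0.le
      · rw [hS, tsum_mul_left]
    have hcN : 0 < ‖c N‖ := norm_pos_iff.mpr hN
    have h1 := hbd (min (1 / 2) (‖c N‖ / (2 * (S + 1)))) (by positivity) (min_le_left _ _)
    have h2 : min (1 / 2) (‖c N‖ / (2 * (S + 1))) * S ≤ ‖c N‖ / (2 * (S + 1)) * (S + 1) := by
      apply mul_le_mul (min_le_right _ _) (by linarith) hS0 (by positivity)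
    have h3 : ‖c N‖ / (2 * (S + 1)) * (S + 1) = ‖c N‖ / 2 := by field_simp
    linarith
  funext n
  have h1 := key (fun n => a n - b n) ?_ ?_ n
  · exact sub_eq_zero.mp h1
  · intro ρ h0 h1
    refine Summable.of_nonneg_of_le (fun n => by positivity) (fun n => ?_)
      ((ha ρ h0 h1).add (hb ρ h0 h1))
    rw [← add_mul]
    exact mul_le_mul_of_nonneg_right (norm_sub_le _ _) (by positivity)
  · intro q hq0 hq1
    have hs : ∀ c : ℕ → ℂ, (∀ ρ : ℝ, 0 ≤ ρ → ρ < 1 → Summable fun n : ℕ => ‖c n‖ * ρ ^ n) →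
        Summable fun n : ℕ => c n * q ^ n := by
      intro c hc
      apply Summable.of_norm
      refine (hc ‖q‖ (norm_nonneg q) hq1).congr fun n => ?_
      rw [norm_mul, norm_pow]
    have h2 : (fun n : ℕ => (a n - b n) * q ^ n) = fun n => a n * q ^ n - b n * q ^ n := by
      funext n; ring
    rw [h2, (hs a ha).tsum_sub (hs b hb), h q hq0 hq1, sub_self]

end

end Pool.Agent.ZPT.H88
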